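import Pool.Agent.Lib.MP_226ef1_lc.U.IfaceM

/-!
# Module NETORD: a network is a finite linear order with its cyclic successor
-/

set_option autoImplicit false

namespace Pool.Agent.Lib.MP_226ef1_lc.U.H66

open Pool.Agent.Lib.MP_226ef1_lc.U

section

variable {R : List (ℕ × ℕ × ℕ)} {qs qh m : ℕ} {D : Fin m → Fin m → ℕ}

theorem eo_self (h : Net R qs qh D) (x : Fin m) : eo (D x x) = 1 := (h.eq x x).2 rfl

theorem eo_asymm (h : Net R qs qh D) {x y : Fin m} (h1 : eo (D x y) = 0) : eo (D y x) ≠ 0 := by
  intro h2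
  have h3 := (h.kp x y x).1.1 h1 h2
  rw [eo_self h x] at h3
  omega

theorem eo_trans (h : Net R qs qh D) {x y z : Fin m} (h1 : eo (D x y) = 0)
    (h2 : eo (D y z) = 0) : eo (D x z) = 0 := (h.kp x y z).1.1 h1 h2

theorem eo_total (h : Net R qs qh D) {x y : Fin m} (hxy : x ≠ y) :
    eo (D x y) = 0 ∨ eo (D y x) = 0 := by
  by_contra hc
  push Not at hc
  have a1 := (h.mem x y).1
  have a2 := (h.mem y x).1
  have b1 : eo (D x y) ≠ 1 := fun e => hxy ((h.eq x y).1 e)
  have b2 : eo (D y x) ≠ 1 := fun e => hxy ((h.eq y x).1 e).symm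
  have h3 := (h.kp x y x).1.2.1 (by omega) (by omega)
  rw [eo_self h x] at h3
  omega

/-- the number of predecessors -/
def rk (D : Fin m → Fin m → ℕ) (x : Fin m) : Fin m :=
  ⟨(Finset.univ.filter fun y => eo (D y x) = 0 ∧ y ≠ x).card, by
    have h1 : (Finset.univ.filter fun y => eo (D y x) = 0 ∧ y ≠ x).card <
        (Finset.univ : Finset (Fin m)).card := by
      apply Finset.card_lt_card
      rw [Finset.filter_ssubset]
      exact ⟨x, Finset.mem_univ x, fun h => h.2 rfl⟩
    simpa using h1⟩

theorem rk_lt (h : Net R qs qh D) {x y : Fin m} (h1 : eo (D x y) = 0) : rk D x < rk D y := by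
  have hxy : x ≠ y := by
    rintro rfl
    rw [eo_self h x] at h1
    omega
  show (Finset.univ.filter fun z => eo (D z x) = 0 ∧ z ≠ x).card <
    (Finset.univ.filter fun z => eo (D z y) = 0 ∧ z ≠ y).card
  apply Finset.card_lt_card
  rw [Finset.ssubset_iff_of_subset]
  · refine ⟨x, ?_, ?_⟩
    · simp only [Finset.mem_filter, Finset.mem_univ, true_and]
      exact ⟨h1, hxy⟩
    · simp
  · intro z hz
    simp only [Finset.mem_filter, Finset.mem_univ, true_and] at hz ⊢
    refine ⟨eo_trans h hz.1 h1, ?_⟩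
    rintro rfl
    exact eo_asymm h h1 hz.1

theorem rk_lt_iff (h : Net R qs qh D) {x y : Fin m} : rk D x < rk D y ↔ eo (D x y) = 0 := by
  constructor
  · intro h1
    have hxy : x ≠ y := by
      rintro rfl
      exact lt_irrefl _ h1
    rcases eo_total h hxy with h2 | h2
    · exact h2
    · exact absurd (rk_lt h h2) (not_lt.2 h1.le)
  · exact rk_lt h

theorem rk_inj (h : Net R qs qh D) : Function.Injective (rk D) := by
  intro x y hxy
  by_contra hc
  rcases eo_total h hc with h1 | h1
  · exact absurd (rk_lt h h1) (by rw [hxy]; exact lt_irrefl _)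
  · exact absurd (rk_lt h h1) (by rw [hxy]; exact lt_irrefl _)

end

/-- in an ordered network the flags point to the cyclic successor -/
theorem succ_of_ordered {R : List (ℕ × ℕ × ℕ)} {qs qh m : ℕ} {D : Fin m → Fin m → ℕ}
    (h : Net R qs qh D) (ho : ∀ x y, eo (D x y) = 0 ↔ x < y) (x z : Fin m)
    (hs : es (D x z) = 1) : z.val = (x.val + 1) % m := by
  have hne : x ≠ z := by
    rintro rfl
    exact (h.kp x x x).2.1.2.2 hs (eo_self h x)
  have hk : ∀ y : Fin m, K2 (D x y) (D y z) (D x z) := fun y => (h.kp x y z).2.1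
  rcases eo_total h hne with h1 | h1
  · have hxz : x < z := (ho x z).1 h1
    have h2 : ¬ x.val + 1 < z.val := by
      intro hlt
      have hy : x.val + 1 < m := lt_trans hlt z.2
      have := (hk ⟨x.val + 1, hy⟩).1 hs h1
      apply this
      constructor
      · rw [ho]
        show x.val < x.val + 1
        omega
      · rw [ho]
        show x.val + 1 < z.val
        exact hlt
    have h3 : x.val < z.val := hxz
    have h4 : z.val = x.val + 1 := by omega
    rw [h4, Nat.mod_eq_of_lt (by rw [← h4]; exact z.2)]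
  · have hzx : z < x := (ho z x).1 h1
    have e2 : eo (D x z) = 2 := by
      have a1 := (h.mem x z).1
      have a2 : eo (D x z) ≠ 1 := fun e => hne ((h.eq x z).1 e)
      have a3 : eo (D x z) ≠ 0 := fun e => absurd ((ho x z).1 e) (not_lt.2 hzx.le)
      omega
    have h2 : ∀ y : Fin m, ¬ x < y ∧ ¬ y < z := by
      intro y
      have := (hk y).2.1 hs e2
      exact ⟨fun hy => this.1 ((ho x y).2 hy), fun hy => this.2 ((ho y z).2 hy)⟩
    have hm : 0 < m := lt_of_le_of_lt (Nat.zero_le _) x.2
    have h3 : z.val = 0 := by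
      have := (h2 ⟨0, hm⟩).2
      by_contra hc
      apply this
      show 0 < z.val
      omega
    have h4 : x.val = m - 1 := by
      have := (h2 ⟨m - 1, by omega⟩).1
      have hx := x.2
      by_contra hc
      apply this
      show x.val < m - 1
      omega
    rw [h3, h4, Nat.sub_add_cancel (by omega), Nat.mod_self]

/-- module NETORD -/
theorem netord : NetOrdStatement := by
  intro qs qh R m D hm h
  have hbij : Function.Bijective (rk D) := Finite.injective_iff_bijective.1 (rk_inj h)
  let e : Fin m ≃ Fin m := (Equiv.ofBijective (rk D) hbij).symm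
  have he : ∀ x, rk D (e x) = x := fun x => (Equiv.ofBijective (rk D) hbij).apply_symm_apply x
  have hnet : Net R qs qh (fun x y => D (e x) (e y)) := by
    refine ⟨fun x y => h.mem _ _, fun x y => ?_, fun x y hxy => h.nb _ _ (fun hc => hxy (e.injective hc)),
      fun x y z => h.kp _ _ _, fun x => ?_⟩
    · rw [h.eq]
      exact e.injective.eq_iff
    · obtain ⟨y, hy1, hy2⟩ := h.sc (e x)
      refine ⟨e.symm y, ?_, ?_⟩
      · rintro rfl
        exact hy1 (e.apply_symm_apply y).symm
      · rw [e.apply_symm_apply]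
        exact hy2
  have ho : ∀ x y, eo (D (e x) (e y)) = 0 ↔ x < y := by
    intro x y
    rw [← rk_lt_iff h, he, he]
  refine ⟨fun x y => D (e x) (e y), hnet, ho, fun x y => ⟨succ_of_ordered hnet ho x y, fun hy => ?_⟩⟩
  obtain ⟨z, hz1, hz2⟩ := hnet.sc x
  have h2 := succ_of_ordered hnet ho x z hz2
  have h3 : z = y := Fin.ext (by rw [h2, hy])
  rw [← h3]
  exact hz2

end Pool.Agent.Lib.MP_226ef1_lc.U.H66
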