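import Pool.Agent.Lib.MP_226ef1_lc.U.IfaceM

/-!
# Modules ROW and VERT: rows of cells encode stacks, vertical conditions encode actions
-/

set_option autoImplicit false

namespace Pool.Agent.Lib.MP_226ef1_lc.U.H66

open Pool.Agent.Lib.MP_226ef1_lc.U

theorem cell_lt {l : List ℕ} {i : ℕ} (h : i < l.length) :
    cellOf l i = 2 + l.reverse.getD i 0 := by
  simp [cellOf, h]

theorem cell_eq (l : List ℕ) : cellOf l l.length = 1 := by
  simp [cellOf]

theorem cell_gt {l : List ℕ} {i : ℕ} (h : l.length < i) : cellOf l i = 0 := by
  simp [cellOf, Nat.not_lt.2 h.le, Nat.ne_of_gt h]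

theorem cell_ge {l : List ℕ} {i : ℕ} (h : 2 ≤ cellOf l i) : i < l.length := by
  rcases lt_trichotomy i l.length with h1 | h1 | h1
  · exact h1
  · subst h1; rw [cell_eq] at h; omega
  · rw [cell_gt h1] at h; omega

theorem cell_one {l : List ℕ} {i : ℕ} (h : cellOf l i = 1) : i = l.length := by
  rcases lt_trichotomy i l.length with h1 | h1 | h1
  · rw [cell_lt h1] at h; omega
  · exact h1
  · rw [cell_gt h1] at h; omega

theorem cell_le {l : List ℕ} {i : ℕ} (h : cellOf l i ≤ 1) : l.length ≤ i := by
  by_contra hc
  push Not at hc
  rw [cell_lt hc] at h; omega

/-- module ROW -/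
theorem row : RowStatement := by
  intro m f hm h0 hl hc
  classical
  have hex : ∃ i, f i < 2 := ⟨m - 1, hl⟩
  obtain ⟨h, hh, hmin⟩ : ∃ h, f h < 2 ∧ ∀ i < h, 2 ≤ f i :=
    ⟨Nat.find hex, Nat.find_spec hex, fun i hi => by
      have := Nat.find_min hex hi; omega⟩
  have hhm : h < m := by
    by_contra hcon
    have := hmin (m - 1) (by omega)
    omega
  have hh1 : f h = 1 := by
    rcases Nat.eq_zero_or_pos h with h2 | h2
    · subst h2; omega
    · have h3 := hc (h - 1) (by omega)
      have h4 := hmin (h - 1) (by omega)
      have h5 : h - 1 + 1 = h := by omega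
      rw [h5] at h3
      rcases h3 with h3 | h3 <;> omega
  have hgt : ∀ i, h < i → i < m → f i = 0 := by
    intro i hi him
    induction i with
    | zero => omega
    | succ i ih =>
      have h3 := hc i him
      rcases Nat.lt_or_ge h i with h4 | h4
      · have h5 := ih h4 (by omega)
        rcases h3 with h3 | h3 <;> omega
      · have h5 : i = h := by omega
        subst h5
        rcases h3 with h3 | h3 <;> omega
  refine ⟨((List.range h).map fun i => f i - 2).reverse, by simpa using hhm, fun i hi => ?_⟩
  rcases lt_trichotomy i h with h1 | h1 | h1
  · rw [cell_lt (by simpa using h1)]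
    have h2 := hmin i h1
    have h3 : ((List.range h).map fun i => f i - 2).getD i 0 = f i - 2 := by
      simp [List.getD, h1]
    rw [List.reverse_reverse, h3]
    omega
  · subst h1
    have := cell_eq ((List.range i).map fun i => f i - 2).reverse
    rw [List.length_reverse, List.length_map, List.length_range] at this
    rw [this, hh1]
  · rw [cell_gt (by simpa using h1), hgt i h1 hi]

theorem getD_ext {l l' : List ℕ} (hlen : l.length = l'.length)
    (h : ∀ i < l.length, l.getD i 0 = l'.getD i 0) : l = l' := by
  apply List.ext_getElem hlen
  intro i h1 h2
  have := h i h1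
  rwa [List.getD_eq_getElem _ _ h1, List.getD_eq_getElem _ _ h2] at this

/-- the push rule for reversed stacks -/
theorem push_of {l l' : List ℕ} {a : ℕ} (hlen : l'.length = l.length + 1)
    (h : ∀ i < l.length, l'.reverse.getD i 0 = l.reverse.getD i 0)
    (ha : l'.reverse.getD l.length 0 = a) : l' = a :: l := by
  have h1 : l'.reverse = l.reverse ++ [a] := by
    apply getD_ext
    · simp [hlen]
    · intro i hi
      rw [List.length_reverse, hlen] at hi
      rcases Nat.lt_or_ge i l.length with h2 | h2
      · rw [h i h2, List.getD_append _ _ _ _ (by simpa using h2)]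
      · have h3 : i = l.length := by omega
        subst h3
        rw [ha, List.getD_append_right _ _ _ _ (by simp)]
        simp
  have h2 := congrArg List.reverse h1
  simpa using h2

/-- module VERT -/
theorem vert : VertStatement := by
  intro m l l' act hl hl' hv
  by_cases h1 : act ≤ 1
  · refine Or.inl ⟨h1, ?_⟩
    have hv' : ∀ i < m, cellOf l' i = cellOf l i := by
      intro i hi
      rcases hv i hi with h | h | h
      · exact h.2
      · omega
      · omega
    have hlen : l.length = l'.length := by
      have := hv' l.length hl
      rw [cell_eq] at this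
      exact cell_one this
    have h2 : l'.reverse = l.reverse := by
      apply getD_ext
      · simp [hlen]
      · intro i hi
        rw [List.length_reverse] at hi
        have h3 := hv' i (by omega)
        rw [cell_lt hi, cell_lt (by omega)] at h3
        omega
    exact List.reverse_injective h2
  by_cases h2 : act ≤ 5
  · refine Or.inr (Or.inl ⟨by omega, h2, ?_⟩)
    have hv' : ∀ i < m, (2 ≤ cellOf l i ∧ cellOf l' i = cellOf l i) ∨
        (cellOf l i = 1 ∧ cellOf l' i = act) ∨ (cellOf l i = 0 ∧ cellOf l' i ≤ 1) := by
      intro i hi
      rcases hv i hi with h | h | h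
      · omega
      · exact h.2.2
      · omega
    have h3 : cellOf l' l.length = act := by
      have := hv' l.length hl
      rw [cell_eq] at this
      rcases this with h | h | h
      · omega
      · exact h.2
      · omega
    have h4 : l.length < l'.length := cell_ge (by omega)
    have h5 : l'.length ≤ l.length + 1 := by
      apply cell_le
      have := hv' (l.length + 1) (by omega)
      rw [cell_gt (Nat.lt_succ_self _)] at this
      rcases this with h | h | h
      · omega
      · omega
      · exact h.2
    refine push_of (by omega) (fun i hi => ?_) ?_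
    · have := hv' i (by omega)
      rw [cell_lt hi, cell_lt (by omega : i < l'.length)] at this
      omega
    · rw [cell_lt h4] at h3
      omega
  · by_cases h6 : act ≤ 9
    · refine Or.inr (Or.inr ⟨by omega, h6, ?_⟩)
      have hv' : ∀ i < m, (2 ≤ cellOf l i ∧ cellOf l' i = cellOf l i) ∨
          (cellOf l i = act - 4 ∧ cellOf l' i = 1) ∨ (cellOf l i ≤ 1 ∧ cellOf l' i = 0) := by
        intro i hi
        rcases hv i hi with h | h | h
        · omega
        · omega
        · exact h.2.2
      have h3 : cellOf l l'.length = act - 4 := by
        have := hv' l'.length hl'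
        rw [cell_eq] at this
        rcases this with h | h | h
        · omega
        · exact h.1
        · omega
      have h4 : l'.length < l.length := cell_ge (by omega)
      have h5 : l.length ≤ l'.length + 1 := by
        apply cell_le
        have := hv' (l'.length + 1) (by omega)
        rw [cell_gt (l := l') (Nat.lt_succ_self _)] at this
        rcases this with h | h | h
        · omega
        · omega
        · exact h.1
      refine push_of (by omega) (fun i hi => ?_) ?_
      · have := hv' i (by omega)
        rw [cell_lt hi, cell_lt (by omega : i < l.length)] at this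
        omega
      · rw [cell_lt h4] at h3
        omega
    · exfalso
      rcases hv l.length hl with h | h | h <;> omega

end Pool.Agent.Lib.MP_226ef1_lc.U.H66
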