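import Pool.Agent.Lib.MP_226ef1_lc.U.IfaceM
import Pool.Agent.Lib.MP_226ef1_lc.U.H66.Row

/-!
# Module NETRUN: an ordered network gives a halting computation
-/

set_option autoImplicit false

namespace Pool.Agent.Lib.MP_226ef1_lc.U.H66

open Pool.Agent.Lib.MP_226ef1_lc.U Relation

/-- module NETRUN -/
theorem netrun : NetRunStatement := by
  intro qs qh R m D hm h ho hsu
  -- at least two elements
  have hm2 : 2 ≤ m := by
    by_contra hc
    obtain ⟨y, hy, -⟩ := h.sc ⟨0, hm⟩
    apply hy
    apply Fin.ext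
    have := y.2
    show y.val = 0
    omega
  have hsu1 : ∀ (x y : Fin m), y.val = x.val + 1 → es (D x y) = 1 ∧ eo (D x y) = 0 := by
    intro x y hxy
    refine ⟨(hsu x y).2 ?_, (ho x y).2 ?_⟩
    · rw [← hxy, Nat.mod_eq_of_lt y.2]
    · show x.val < y.val
      omega
  let z0 : Fin m := ⟨0, hm⟩
  let zl : Fin m := ⟨m - 1, by omega⟩
  have hlast : es (D zl z0) = 1 ∧ eo (D zl z0) = 2 := by
    refine ⟨(hsu zl z0).2 ?_, ?_⟩
    · show 0 = (m - 1 + 1) % m
      rw [Nat.sub_add_cancel (by omega), Nat.mod_self]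
    · have a1 := (h.mem zl z0).1
      have a2 : eo (D zl z0) ≠ 1 := by
        intro e
        have := (h.eq zl z0).1 e
        have h3 := congrArg Fin.val this
        change m - 1 = 0 at h3
        omega
      have a3 : eo (D zl z0) ≠ 0 := by
        intro e
        have h3 := (ho zl z0).1 e
        change m - 1 < 0 at h3
        omega
      omega
  -- the rule of a row does not depend on the column
  have her : ∀ x y z : Fin m, er (D x y) = er (D x z) := fun x y z => (h.kp x y z).2.2.1
  let q : Fin m → ℕ × ℕ × ℕ := fun x => rul R (er (D x x))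
  have hq : ∀ x y, rul R (er (D x y)) = q x := fun x y => by
    show rul R (er (D x y)) = rul R (er (D x x))
    rw [her x y x]
  have hqR : ∀ x, q x ∈ R := by
    intro x
    have := (h.mem x x).2.2.1
    show R.getD (er (D x x)) (0, 0, 0) ∈ R
    rw [List.getD_eq_getElem _ _ this]
    exact List.getElem_mem this
  -- stacks
  have hrow : ∀ (x : Fin m) (k : Fin 4), ∃ l : List ℕ, l.length < m ∧
      ∀ i : Fin m, ec k.val (D x i) = cellOf l i.val := by
    intro x k
    have hk : k.val < 4 := k.2
    have c1 := (h.kp x zl z0).2.2.2.2.1 hlast.1 hlast.2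
    obtain ⟨l, hl1, hl2⟩ := row m (fun i => if hi : i < m then ec k.val (D x ⟨i, hi⟩) else 0) hm
      (by
        simp only [hm, dif_pos]
        exact (c1.1 k.val hk).2)
      (by
        have h1 : m - 1 < m := by omega
        simp only [h1, dif_pos]
        exact (c1.1 k.val hk).1)
      (by
        intro i hi
        have h1 : i < m := by omega
        simp only [h1, hi, dif_pos]
        have h2 := hsu1 ⟨i, h1⟩ ⟨i + 1, hi⟩ rfl
        exact (h.kp x ⟨i, h1⟩ ⟨i + 1, hi⟩).2.2.2.1 h2.1 h2.2 k.val hk)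
    refine ⟨l, hl1, fun i => ?_⟩
    have := hl2 i.val i.2
    simpa [i.2] using this
  choose S hS1 hS2 using hrow
  -- one step
  have hstep : ∀ (x y : Fin m), y.val = x.val + 1 →
      MStep R ((q x).1, S x) ((q y).1, S y) := by
    intro x y hxy
    have h1 := hsu1 x y hxy
    have c1 := (h.kp x zl z0).2.2.2.2.1 hlast.1 hlast.2
    rw [hq] at c1
    have h5 : ∀ z, (q x).2.2 = (q y).1 ∧ Pool.Agent.Lib.MP_226ef1_lc.U.vert (q x).2.1 (D x z) (D y z) := by
      intro z
      have := (h.kp x y z).2.2.2.2.2.1 h1.1 h1.2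
      rw [hq, hq] at this
      exact this
    refine ⟨q x, hqR x, rfl, (h5 x).1, ?_⟩
    have hne : ∀ k : Fin 4, k ≠ opS (q x).2.1 → S y k = S x k := by
      intro k hk
      have hk' : k.val ≠ (q x).2.1 % 4 := fun e => hk (Fin.ext e)
      have hv : ∀ i < m, vcell 0 (cellOf (S x k) i) (cellOf (S y k) i) := by
        intro i hi
        have := ((h5 ⟨i, hi⟩).2 k.val k.2).2 hk'
        rw [hS2 y k ⟨i, hi⟩, hS2 x k ⟨i, hi⟩] at this
        exact Or.inl ⟨by omega, this⟩
      rcases H66.vert m (S x k) (S y k) 0 (hS1 x k) (hS1 y k) hv with h2 | h2 | h2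
      · exact h2.2
      · omega
      · omega
    have hop : ∀ i < m, vcell ((q x).2.1 / 4) (cellOf (S x (opS (q x).2.1)) i)
        (cellOf (S y (opS (q x).2.1)) i) := by
      intro i hi
      have := ((h5 ⟨i, hi⟩).2 (opS (q x).2.1).val (opS (q x).2.1).2).1 rfl
      rw [hS2 y _ ⟨i, hi⟩, hS2 x _ ⟨i, hi⟩] at this
      exact this
    have hv := H66.vert m _ _ _ (hS1 x _) (hS1 y _) hop
    rcases hv with h2 | h2 | h2
    · have hSS : S y = S x := by
        funext k
        by_cases hk : k = opS (q x).2.1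
        · rw [hk]; exact h2.2
        · exact hne k hk
      by_cases h0 : (q x).2.1 / 4 = 0
      · exact Or.inl ⟨h0, hSS⟩
      · have h3 : (q x).2.1 / 4 = 1 := by omega
        refine Or.inr (Or.inl ⟨h3, ?_, hSS⟩)
        have h4 := c1.2 h3
        have h6 := hS2 x (opS (q x).2.1) z0
        change ec ((q x).2.1 % 4) (D x z0) = _ at h6
        rw [h4] at h6
        have h7 := cell_one h6.symm
        change 0 = _ at h7
        exact List.eq_nil_of_length_eq_zero h7.symm
    · refine Or.inr (Or.inr (Or.inl ⟨h2.1, h2.2.1, ?_⟩))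
      funext k
      by_cases hk : k = opS (q x).2.1
      · subst hk
        rw [Function.update_self]
        exact h2.2.2
      · rw [Function.update_of_ne hk]
        exact hne k hk
    · refine Or.inr (Or.inr (Or.inr ⟨h2.1, h2.2.1, ?_⟩))
      funext k
      by_cases hk : k = opS (q x).2.1
      · subst hk
        rw [Function.update_self]
        exact h2.2.2
      · rw [Function.update_of_ne hk]
        exact (hne k hk).symm
  -- first and last row
  have h5b : ∀ z, (q zl).1 = qh ∧ (q z0).1 = qs ∧ ∀ k < 4, ec k (D z0 z) < 2 := by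
    intro z
    have := (h.kp zl z0 z).2.2.2.2.2.2 hlast.1 hlast.2
    rw [hq, hq] at this
    exact this
  have hS0 : S z0 = fun _ => [] := by
    funext k
    have h2 := (h5b z0).2.2 k.val k.2
    rw [hS2 z0 k z0] at h2
    have h3 := cell_le (Nat.lt_succ_iff.1 h2)
    change _ ≤ 0 at h3
    exact List.eq_nil_of_length_eq_zero (Nat.le_zero.1 h3)
  -- the run
  have hrun : ∀ n (hn : n < m), ReflTransGen (MStep R) (qs, fun _ => [])
      ((q ⟨n, hn⟩).1, S ⟨n, hn⟩) := by
    intro n
    induction n with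
    | zero =>
      intro hn
      have h1 : (q ⟨0, hn⟩).1 = qs := (h5b z0).2.1
      have h2 : S ⟨0, hn⟩ = fun _ => [] := hS0
      rw [h1, h2]
    | succ n ih =>
      intro hn
      exact (ih (by omega)).tail (hstep ⟨n, by omega⟩ ⟨n + 1, hn⟩ rfl)
  refine ⟨S zl, ?_⟩
  have := hrun (m - 1) (by omega)
  have h1 : (q ⟨m - 1, by omega⟩).1 = qh := (h5b z0).1
  rw [h1] at this
  exact this

end Pool.Agent.Lib.MP_226ef1_lc.U.H66
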